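import Pool.Agent.Q23.EG.Stm

/-!
# Project EG: the trace of the relations
-/

set_option autoImplicit false

namespace Pool.Agent.Q190.EG

open Finset Pool.Agent.Q23.EG

open scoped Classical in
/-- A3. -/
theorem trace : S_trace := by
  intro k _ q Q _ χ f hq hQk hprime hrel a
  have hQ0 : Q ≠ 0 := NeZero.ne Q
  have hrelU : ∀ j : ℕ, ∑ c : (ZMod Q)ˣ, (χ⁻¹ (c : ZMod Q)) ^ q ^ j * f (c : ZMod Q) = 0 := by
    intro j
    have h1 : ∑ c : (ZMod Q)ˣ, (χ⁻¹ (c : ZMod Q)) ^ q ^ j * f (c : ZMod Q) =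
        ∑ c : ZMod Q, (χ⁻¹ c) ^ q ^ j * f c := by
      have h2 : ∑ c ∈ (univ : Finset (ZMod Q)ˣ).map ⟨(fun c : (ZMod Q)ˣ => (c : ZMod Q)), fun a b h => Units.ext h⟩,
          (χ⁻¹ c) ^ q ^ j * f c = ∑ c : (ZMod Q)ˣ, (χ⁻¹ (c : ZMod Q)) ^ q ^ j * f (c : ZMod Q) := by
        rw [Finset.sum_map]
        rfl
      rw [← h2]
      apply Finset.sum_subset (subset_univ _)
      intro c _ hc
      have h3 : ¬ IsUnit c := by
        rintro ⟨u, hu⟩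
        exact hc (Finset.mem_map.2 ⟨u, mem_univ _, hu⟩)
      have h4 : q ^ j ≠ 0 := pow_ne_zero _ (by omega)
      rw [MulChar.map_nonunit _ h3, zero_pow h4, zero_mul]
    rw [h1]
    exact hrel j
  set z : (ZMod Q)ˣ → k := fun c => χ⁻¹ (c : ZMod Q) * χ (a : ZMod Q) with hz
  have hzu : ∀ c : (ZMod Q)ˣ, z c * χ ((c * a⁻¹ : (ZMod Q)ˣ) : ZMod Q) = 1 := by
    intro c
    have h1 : (χ⁻¹ (c : ZMod Q)) * χ (c : ZMod Q) = 1 := by
      rw [← MulChar.mul_apply, inv_mul_cancel, MulChar.one_apply_coe]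
    have h2 : χ (a : ZMod Q) * χ ((a⁻¹ : (ZMod Q)ˣ) : ZMod Q) = 1 := by
      rw [← map_mul, ← Units.val_mul, mul_inv_cancel, Units.val_one, map_one]
    rw [Units.val_mul, map_mul]
    calc z c * (χ (c : ZMod Q) * χ ((a⁻¹ : (ZMod Q)ˣ) : ZMod Q))
        = (χ⁻¹ (c : ZMod Q) * χ (c : ZMod Q)) * (χ (a : ZMod Q) * χ ((a⁻¹ : (ZMod Q)ˣ) : ZMod Q)) := by
          simp only [hz]; ring
      _ = 1 := by rw [h1, h2, one_mul]
  have hz0 : ∀ c : (ZMod Q)ˣ, z c ≠ 0 := fun c => left_ne_zero_of_mul_eq_one (hzu c)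
  have hzc : ∀ (c : (ZMod Q)ˣ) (n : ℕ), χ ((c * a⁻¹ : (ZMod Q)ˣ) : ZMod Q) ^ n = 1 ↔ z c ^ n = 1 := by
    intro c n
    have h1 : z c ^ n * χ ((c * a⁻¹ : (ZMod Q)ˣ) : ZMod Q) ^ n = 1 := by
      rw [← mul_pow, hzu, one_pow]
    constructor
    · intro h
      rwa [h, mul_one] at h1
    · intro h
      rwa [h, one_mul] at h1
  have hexp : ∀ c : (ZMod Q)ˣ, (z c ^ (q - 1)) ^ Q = 1 := by
    intro c
    rw [← pow_mul, ← hzc, ← map_pow, ← Units.val_pow_eq_pow_val]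
    have h1 : (c * a⁻¹) ^ ((q - 1) * Q) = 1 := by
      set u := c * a⁻¹ with hu
      apply Units.ext
      rw [Units.val_pow_eq_pow_val, Units.val_one]
      have h2 : ((u : ZMod Q).val).Coprime Q := ZMod.val_coe_unit_coprime u
      have h3 := exp_dvd (W := Q) (r := q - 1) (fun ℓ h h' => (hprime ℓ h h').2.1) h2
      have h4 := (ZMod.natCast_eq_natCast_iff _ _ _).2 h3
      rw [Nat.cast_pow, ZMod.natCast_zmod_val, Nat.cast_one] at h4
      exact h4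
    rw [h1, Units.val_one, map_one]
  -- sum over `j`
  have hsum : ∑ c : (ZMod Q)ˣ, (∑ j ∈ range Q, z c ^ q ^ j) * f (c : ZMod Q) = 0 := by
    have h1 : ∀ j : ℕ, ∑ c : (ZMod Q)ˣ, z c ^ q ^ j * f (c : ZMod Q) = 0 := by
      intro j
      have h2 : ∀ c : (ZMod Q)ˣ, z c ^ q ^ j * f (c : ZMod Q) =
          χ (a : ZMod Q) ^ q ^ j * ((χ⁻¹ (c : ZMod Q)) ^ q ^ j * f (c : ZMod Q)) := by
        intro c
        simp only [hz]
        rw [mul_pow]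
        ring
      rw [Finset.sum_congr rfl fun c _ => h2 c, ← Finset.mul_sum, hrelU j, mul_zero]
    have h3 : ∑ c : (ZMod Q)ˣ, (∑ j ∈ range Q, z c ^ q ^ j) * f (c : ZMod Q) =
        ∑ j ∈ range Q, ∑ c : (ZMod Q)ˣ, z c ^ q ^ j * f (c : ZMod Q) := by
      rw [Finset.sum_comm]
      exact Finset.sum_congr rfl fun c _ => Finset.sum_mul _ _ _
    rw [h3]
    exact Finset.sum_eq_zero fun j _ => h1 j
  have hcoef : ∀ c : (ZMod Q)ˣ, (∑ j ∈ range Q, z c ^ q ^ j) * f (c : ZMod Q) =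
      if χ ((c * a⁻¹ : (ZMod Q)ˣ) : ZMod Q) ^ (q - 1) = 1 then
        ((Q : k) * χ (a : ZMod Q)) * (χ⁻¹ (c : ZMod Q) * f (c : ZMod Q)) else 0 := by
    intro c
    by_cases h : χ ((c * a⁻¹ : (ZMod Q)ˣ) : ZMod Q) ^ (q - 1) = 1
    · rw [if_pos h, Pool.Agent.Y18.GX.trace_one (z c) hq.le ((hzc c _).1 h)]
      simp only [hz]
      ring
    · rw [if_neg h, trace_zeroG hq hQ0 (fun ℓ h1 h2 => ⟨(hprime ℓ h1 h2).1, (hprime ℓ h1 h2).2.2⟩) (z c) (hz0 c)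
        (fun h1 => h ((hzc c _).2 h1)) (hexp c), zero_mul]
  rw [Finset.sum_congr rfl fun c _ => hcoef c, ← Finset.sum_filter, ← Finset.mul_sum] at hsum
  rcases mul_eq_zero.1 hsum with h | h
  · rcases mul_eq_zero.1 h with h | h
    · exact absurd h hQk
    · have h1 : χ (a : ZMod Q) * χ ((a⁻¹ : (ZMod Q)ˣ) : ZMod Q) = 1 := by
        rw [← map_mul, ← Units.val_mul, mul_inv_cancel, Units.val_one, map_one]
      exact absurd h (left_ne_zero_of_mul_eq_one h1)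
  · exact h

end Pool.Agent.Q190.EG
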